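import Pool.Agent.H13.AugZar

set_option autoImplicit false

namespace Pool.Agent.Results.MP_10302a_co.Q1False

open Pool.Agent.H13.AugZar

theorem result :
    ¬ ∃ C : ℝ, ∀ m n : ℕ, 2 ≤ m → 2 ≤ n → (z3A m n : ℝ) ≤ C * (m * Real.sqrt n + n) :=
  unbounded z3A z3A_ge

end Pool.Agent.Results.MP_10302a_co.Q1False
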